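import Mathlib

/-!
# Commuting graph and rank of a semigroup
-/

namespace Q20.RankDiam

/-- The non-central elements of a semigroup. -/
abbrev NonCentral (S : Type*) [Semigroup S] : Type _ :=
  {x : S // ¬ ∀ y : S, x * y = y * x}

/-- The commuting graph of a semigroup: the vertices are the non-central elements, and distinct
vertices are adjacent exactly when they commute. -/
def commutingGraph (S : Type*) [Semigroup S] : SimpleGraph (NonCentral S) where
  Adj x y := x ≠ y ∧ x.1 * y.1 = y.1 * x.1
  symm := ⟨fun _ _ h => ⟨h.1.symm, h.2.symm⟩⟩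
  loopless := ⟨fun _ h => h.1 rfl⟩

/-- The semigroup `S` has rank at most `d`: some `d` or fewer elements generate it. -/
def RankAtMost (S : Type*) [Semigroup S] (d : ℕ) : Prop :=
  ∃ s : Finset S, s.card ≤ d ∧ Subsemigroup.closure (s : Set S) = ⊤

end Q20.RankDiam
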