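import Pool.Agent.Q20.RankDiam.Defs

namespace Q20.RankDiam

/-- left indices: a fixed point `al` and the natural numbers -/
inductive Idx where
  | al : Idx
  | nn : ℕ → Idx
deriving DecidableEq

/-- right indices -/
inductive Fn where
  | ff : Fn
  | nu : Fn
  | lam : ℕ → Fn
deriving DecidableEq

/-- the action of the `(a+1)`-st power of `t` on left indices -/
def Idx.shift (a : ℕ) : Idx → Idx
  | .al => .al
  | .nn m => .nn (m + a + 1)

/-- the action of the `(a+1)`-st power of `t` on right indices -/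
def Fn.shift (a : ℕ) : Fn → Fn
  | .ff => .ff
  | .nu => .ff
  | .lam k => .lam (k + a + 1)

/-- the pairing, `true` for a nonzero product -/
def pairing (N : ℕ) : Fn → Idx → Bool
  | .ff, .al => false
  | .ff, .nn _ => true
  | .nu, .al => false
  | .nu, .nn m => decide (m ≠ 0)
  | .lam _, .al => true
  | .lam k, .nn m => decide (¬ ((m + k) % N = 0 ∨ (m + k) % N = 1))

lemma pairing_shift (N : ℕ) (l : Fn) (a : ℕ) (i : Idx) :
    pairing N (l.shift a) i = pairing N l (i.shift a) := by
  cases l <;> cases i <;> simp [Fn.shift, Idx.shift, pairing, Nat.add_assoc, Nat.add_comm,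
    Nat.add_left_comm]

/-- the elements of the semigroup -/
inductive El where
  | zero : El
  | pow : ℕ → El
  | pair : Idx → Fn → El
deriving DecidableEq

/-- multiplication -/
def El.mul (N : ℕ) : El → El → El
  | .zero, _ => .zero
  | .pow _, .zero => .zero
  | .pair _ _, .zero => .zero
  | .pow a, .pow b => .pow (a + b + 1)
  | .pow a, .pair i l => .pair (i.shift a) l
  | .pair i l, .pow a => .pair i (l.shift a)
  | .pair i l, .pair j m => if pairing N l j then .pair i m else .zero

lemma Idx.shift_shift (a b : ℕ) (i : Idx) : (i.shift b).shift a = i.shift (a + b + 1) := by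
  cases i <;> simp [Idx.shift]
  omega

lemma Fn.shift_shift (a b : ℕ) (l : Fn) : (l.shift a).shift b = l.shift (a + b + 1) := by
  cases l <;> simp [Fn.shift]
  omega

lemma El.mul_assoc' (N : ℕ) (x y z : El) :
    El.mul N (El.mul N x y) z = El.mul N x (El.mul N y z) := by
  cases x with
  | zero => cases y <;> cases z <;> simp [El.mul]
  | pow a =>
    cases y with
    | zero => cases z <;> simp [El.mul]
    | pow b =>
      cases z with
      | zero => simp [El.mul]
      | pow c => simp [El.mul]; omega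
      | pair j m => simp [El.mul, Idx.shift_shift]
    | pair i l =>
      cases z with
      | zero => simp [El.mul]
      | pow c => simp [El.mul]
      | pair j m =>
        simp only [El.mul]
        split_ifs <;> simp [El.mul]
  | pair i l =>
    cases y with
    | zero => cases z <;> simp [El.mul]
    | pow b =>
      cases z with
      | zero => simp [El.mul]
      | pow c => simp [El.mul, Fn.shift_shift]
      | pair j m => simp [El.mul, pairing_shift]
    | pair j m =>
      cases z with
      | zero =>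
        simp only [El.mul]
        split_ifs <;> simp [El.mul]
      | pow c =>
        simp only [El.mul]
        split_ifs <;> simp [El.mul]
      | pair k o =>
        simp only [El.mul]
        by_cases h1 : pairing N l j <;> by_cases h2 : pairing N m k <;> simp [El.mul, h1, h2]

/-- the semigroup with parameter `N` -/
def Sg (_N : ℕ) : Type := El

instance (N : ℕ) : Semigroup (Sg N) where
  mul x y := El.mul N x y
  mul_assoc x y z := El.mul_assoc' N x y z

variable {N : ℕ}

/-- zero -/
def zz : Sg N := El.zero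
/-- powers of `t` -/
def tt (a : ℕ) : Sg N := El.pow a
/-- the pairs -/
def pp (i : Idx) (l : Fn) : Sg N := El.pair i l

lemma cases' (x : Sg N) : x = zz ∨ (∃ a, x = tt a) ∨ (∃ i l, x = pp i l) := by
  cases x with
  | zero => exact Or.inl rfl
  | pow a => exact Or.inr (Or.inl ⟨a, rfl⟩)
  | pair i l => exact Or.inr (Or.inr ⟨i, l, rfl⟩)

lemma zz_mul (x : Sg N) : zz * x = zz := by
  cases x <;> rfl
lemma mul_zz (x : Sg N) : x * zz = zz := by
  cases x <;> rfl
lemma tt_mul_tt (a b : ℕ) : (tt a : Sg N) * tt b = tt (a + b + 1) := rfl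
lemma tt_mul_pp (a : ℕ) (i : Idx) (l : Fn) : (tt a : Sg N) * pp i l = pp (i.shift a) l := rfl
lemma pp_mul_tt (a : ℕ) (i : Idx) (l : Fn) : (pp i l : Sg N) * tt a = pp i (l.shift a) := rfl
lemma pp_mul_pp (i j : Idx) (l m : Fn) :
    (pp i l : Sg N) * pp j m = if pairing N l j then pp i m else zz := rfl

lemma pp_inj {i j : Idx} {l m : Fn} : (pp i l : Sg N) = pp j m ↔ i = j ∧ l = m := by
  constructor
  · intro h
    have : El.pair i l = El.pair j m := h
    injection this with h1 h2
    exact ⟨h1, h2⟩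
  · rintro ⟨rfl, rfl⟩; rfl

lemma pp_ne_zz {i : Idx} {l : Fn} : (pp i l : Sg N) ≠ zz := by
  intro h
  have : El.pair i l = El.zero := h
  cases this

lemma pp_ne_tt {i : Idx} {l : Fn} {a : ℕ} : (pp i l : Sg N) ≠ tt a := by
  intro h
  have : El.pair i l = El.pow a := h
  cases this

lemma shift_eq_iff {a : ℕ} {i : Idx} : i.shift a = i ↔ i = Idx.al := by
  cases i with
  | al => simp [Idx.shift]
  | nn m =>
    simp only [Idx.shift, Idx.nn.injEq, reduceCtorEq, iff_false]
    omega

lemma fshift_eq_iff {a : ℕ} {l : Fn} : l.shift a = l ↔ l = Fn.ff := by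
  cases l with
  | ff => simp [Fn.shift]
  | nu => simp [Fn.shift]
  | lam m =>
    simp only [Fn.shift, Fn.lam.injEq, reduceCtorEq, iff_false]
    omega

lemma comm_tt_pp {a : ℕ} {i : Idx} {l : Fn} :
    (tt a : Sg N) * pp i l = pp i l * tt a ↔ i = Idx.al ∧ l = Fn.ff := by
  rw [tt_mul_pp, pp_mul_tt, pp_inj, shift_eq_iff, eq_comm (a := l), fshift_eq_iff]

lemma comm_pp_pp {i j : Idx} {l m : Fn} :
    (pp i l : Sg N) * pp j m = pp j m * pp i l ↔
      (i = j ∧ l = m) ∨ (pairing N l j = false ∧ pairing N m i = false) := by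
  rw [pp_mul_pp, pp_mul_pp]
  by_cases h1 : pairing N l j <;> by_cases h2 : pairing N m i
  · simp only [h1, h2, if_true, pp_inj]
    constructor
    · rintro ⟨h3, h4⟩; exact Or.inl ⟨h3, h4.symm⟩
    · rintro (⟨h3, h4⟩ | ⟨h3, h4⟩)
      · exact ⟨h3, h4.symm⟩
      · exact absurd h3 (by simp)
  · simp only [h1, h2, if_true]
    constructor
    · intro h
      exact absurd h pp_ne_zz
    · rintro (⟨h3, h4⟩ | ⟨h3, h4⟩)
      · subst h3; subst h4; exact absurd h1 h2
      · exact absurd h3 (by simp)
  · simp only [h1, h2, if_true]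
    constructor
    · intro h
      exact absurd h.symm pp_ne_zz
    · rintro (⟨h3, h4⟩ | ⟨h3, h4⟩)
      · subst h3; subst h4; exact absurd h2 h1
      · exact absurd h4 (by simp)
  · simp only [h1, h2]
    simp

lemma noncentral_tt (a : ℕ) : ¬ ∀ y : Sg N, tt a * y = y * tt a := by
  intro h
  have := comm_tt_pp.1 (h (pp (Idx.nn 0) Fn.ff))
  exact absurd this.1 (by simp)

lemma noncentral_pp (i : Idx) (l : Fn) : ¬ ∀ y : Sg N, pp i l * y = y * pp i l := by
  intro h
  have h1 := comm_tt_pp.1 (h (tt 0)).symm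
  obtain ⟨rfl, rfl⟩ := h1
  have h2 := comm_pp_pp.1 (h (pp (Idx.nn 0) Fn.ff))
  rcases h2 with ⟨h3, -⟩ | ⟨h3, -⟩
  · exact absurd h3 (by simp)
  · exact absurd h3 (by simp [pairing])

/-- vertices -/
def vt (a : ℕ) : NonCentral (Sg N) := ⟨tt a, noncentral_tt a⟩
/-- vertices -/
def vp (i : Idx) (l : Fn) : NonCentral (Sg N) := ⟨pp i l, noncentral_pp i l⟩

lemma vertex_cases (x : NonCentral (Sg N)) : (∃ a, x = vt a) ∨ (∃ i l, x = vp i l) := by
  obtain ⟨x, hx⟩ := x
  rcases cases' x with rfl | ⟨a, rfl⟩ | ⟨i, l, rfl⟩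
  · exact absurd (fun y => by rw [zz_mul, mul_zz]) hx
  · exact Or.inl ⟨a, rfl⟩
  · exact Or.inr ⟨i, l, rfl⟩

/-! ### Upper bound -/

/-- vertices of the zero graph at distance at most `k` from the terminal edge -/
def R (N : ℕ) : ℕ → (Idx → Prop) × (Fn → Prop)
  | 0 => (fun i => i = Idx.al, fun l => l = Fn.ff)
  | k + 1 => (fun i => ∃ l, pairing N l i = false ∧ (R N k).2 l,
      fun l => ∃ i, pairing N l i = false ∧ (R N k).1 i)

lemma R_succ (k : ℕ) : (∀ i, (R N k).1 i → (R N (k + 1)).1 i) ∧
    (∀ l, (R N k).2 l → (R N (k + 1)).2 l) := by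
  induction k with
  | zero =>
    constructor
    · rintro i rfl
      exact ⟨Fn.ff, rfl, rfl⟩
    · rintro l rfl
      exact ⟨Idx.al, rfl, rfl⟩
  | succ k ih =>
    constructor
    · rintro i ⟨l, h1, h2⟩
      exact ⟨l, h1, ih.2 l h2⟩
    · rintro l ⟨i, h1, h2⟩
      exact ⟨i, h1, ih.1 i h2⟩

lemma R_mono {k k' : ℕ} (h : k ≤ k') : (∀ i, (R N k).1 i → (R N k').1 i) ∧
    (∀ l, (R N k).2 l → (R N k').2 l) := by
  induction h with
  | refl => exact ⟨fun _ h => h, fun _ h => h⟩
  | step _ ih =>
    exact ⟨fun i h => (R_succ _).1 i (ih.1 i h), fun l h => (R_succ _).2 l (ih.2 l h)⟩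

lemma reach (k : ℕ) : ∀ i l, (R N k).1 i → (R N k).2 l →
    ∃ w : (commutingGraph (Sg N)).Walk (vp i l) (vp Idx.al Fn.ff), w.length ≤ k := by
  induction k with
  | zero =>
    rintro i l rfl rfl
    exact ⟨.nil, le_rfl⟩
  | succ k ih =>
    rintro i l ⟨m, h1, h2⟩ ⟨j, h3, h4⟩
    obtain ⟨w, hw⟩ := ih j m h4 h2
    by_cases heq : (vp i l : NonCentral (Sg N)) = vp j m
    · rw [heq]
      exact ⟨w, by omega⟩
    · refine ⟨.cons (v := vp j m) ⟨heq, ?_⟩ w, ?_⟩
      · exact comm_pp_pp.2 (Or.inr ⟨h3, h1⟩)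
      · rw [SimpleGraph.Walk.length_cons]; omega

lemma R_nn (hN : 2 ≤ N) (r : ℕ) : ∀ n, n % N = r → (R N (2 * r + 4)).1 (Idx.nn n) := by
  induction r with
  | zero =>
    intro n hn
    refine ⟨Fn.lam 0, by simp [pairing, hn], ?_⟩
    refine ⟨Idx.nn 0, by simp [pairing], ?_⟩
    refine ⟨Fn.nu, by simp [pairing], ?_⟩
    exact ⟨Idx.al, by simp [pairing], rfl⟩
  | succ r ih =>
    intro n hn
    have hr : r + 1 < N := hn ▸ Nat.mod_lt n (by omega)
    refine ⟨Fn.lam (N - r), ?_, ?_⟩
    · have : (n + (N - r)) % N = 1 := by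
        rw [Nat.add_mod, hn]
        rcases Nat.eq_zero_or_pos r with h0 | h0
        · subst h0
          rw [Nat.sub_zero, Nat.mod_self, Nat.add_zero]
          exact Nat.mod_eq_of_lt (by omega)
        · rw [Nat.mod_eq_of_lt (a := N - r) (by omega)]
          have : r + 1 + (N - r) = 1 + N := by omega
          rw [this, Nat.add_mod_right]
          exact Nat.mod_eq_of_lt (by omega)
      simp [pairing, this]
    · refine ⟨Idx.nn r, ?_, ih r (Nat.mod_eq_of_lt (by omega))⟩
      have : (r + (N - r)) % N = 0 := by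
        have : r + (N - r) = N := by omega
        rw [this, Nat.mod_self]
      simp [pairing, this]

lemma R_all (hN : 2 ≤ N) : (∀ i, (R N (2 * N + 5)).1 i) ∧ (∀ l, (R N (2 * N + 5)).2 l) := by
  have hnn : ∀ n, (R N (2 * N + 4)).1 (Idx.nn n) := by
    intro n
    have h1 := R_nn hN (n % N) n rfl
    have h2 := Nat.mod_lt n (show 0 < N by omega)
    exact (R_mono (by omega)).1 _ h1
  constructor
  · intro i
    cases i with
    | al => exact (R_mono (Nat.zero_le _)).1 _ rfl
    | nn n => exact (R_mono (by omega)).1 _ (hnn n)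
  · intro l
    cases l with
    | ff => exact (R_mono (Nat.zero_le _)).2 _ rfl
    | nu =>
      refine (R_mono (k := 1) (by omega)).2 _ ?_
      exact ⟨Idx.al, by simp [pairing], rfl⟩
    | lam k =>
      refine ⟨Idx.nn (N - k % N), ?_, hnn _⟩
      have hk := Nat.mod_lt k (show 0 < N by omega)
      have : (N - k % N + k) % N = 0 := by
        have h1 : N * (k / N) + k % N = k := Nat.div_add_mod k N
        have h2 : N - k % N + k = N * (k / N + 1) := by
          rw [Nat.mul_add, Nat.mul_one]; omega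
        rw [h2]
        exact Nat.mul_mod_right _ _
      simp [pairing, this]

lemma base_walk (hN : 2 ≤ N) (x : NonCentral (Sg N)) :
    ∃ w : (commutingGraph (Sg N)).Walk x (vp Idx.al Fn.ff), w.length ≤ 2 * N + 5 := by
  rcases vertex_cases x with ⟨a, rfl⟩ | ⟨i, l, rfl⟩
  · refine ⟨.cons (v := vp Idx.al Fn.ff) ⟨?_, ?_⟩ .nil, ?_⟩
    · intro h
      exact pp_ne_tt (congrArg Subtype.val h).symm
    · exact comm_tt_pp.2 ⟨rfl, rfl⟩
    · simp
  · exact reach _ i l ((R_all hN).1 i) ((R_all hN).2 l)

lemma connected (hN : 2 ≤ N) : (commutingGraph (Sg N)).Connected := by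
  rw [SimpleGraph.connected_iff_exists_forall_reachable]
  refine ⟨vp Idx.al Fn.ff, fun x => ?_⟩
  obtain ⟨w, -⟩ := base_walk hN x
  exact ⟨w.reverse⟩

lemma ediam_lt_top (hN : 2 ≤ N) : (commutingGraph (Sg N)).ediam < ⊤ := by
  have hle : (commutingGraph (Sg N)).ediam ≤ ((2 * (2 * N + 5) : ℕ) : ℕ∞) := by
    apply SimpleGraph.ediam_le_of_edist_le
    intro x y
    obtain ⟨w, hw⟩ := base_walk hN x
    obtain ⟨w', hw'⟩ := base_walk hN y
    refine (SimpleGraph.edist_le (w.append w'.reverse)).trans ?_
    rw [SimpleGraph.Walk.length_append, SimpleGraph.Walk.length_reverse]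
    exact_mod_cast (by omega)
  exact hle.trans_lt (ENat.natCast_lt_top _)

/-! ### Lower bound -/

/-- the potential on left indices -/
def hI (N : ℕ) : Idx → ℕ
  | .al => 0
  | .nn m => min (m % N) (N - m % N)

/-- the potential on right indices -/
def hF (N : ℕ) : Fn → ℕ
  | .ff => 0
  | .nu => 0
  | .lam k => min (k % N) (N - k % N)

lemma lip (hN : 2 ≤ N) (l : Fn) (i : Idx) (h : pairing N l i = false) :
    hI N i ≤ hF N l + 1 ∧ hF N l ≤ hI N i + 1 := by
  cases l with
  | ff =>
    cases i with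
    | al => simp [hI, hF]
    | nn m => simp [pairing] at h
  | nu =>
    cases i with
    | al => simp [hI, hF]
    | nn m =>
      have hm : m = 0 := by simpa [pairing] using h
      subst hm
      simp [hI, hF]
  | lam k =>
    cases i with
    | al => simp [pairing] at h
    | nn m =>
      have h' : (m + k) % N = 0 ∨ (m + k) % N = 1 := by
        simp only [pairing, decide_eq_false_iff_not, not_not] at h
        exact h
      rw [Nat.add_mod] at h'
      have h1 := Nat.mod_lt m (show 0 < N by omega)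
      have h2 := Nat.mod_lt k (show 0 < N by omega)
      simp only [hI, hF]
      generalize m % N = a at *
      generalize k % N = b at *
      rcases Nat.lt_or_ge (a + b) N with h3 | h3
      · rw [Nat.mod_eq_of_lt h3] at h'
        omega
      · have h4 : (a + b) % N = a + b - N := by
          rw [Nat.mod_eq_sub_mod h3]
          exact Nat.mod_eq_of_lt (by omega)
        rw [h4] at h'
        omega

/-- the potential -/
def pot (N : ℕ) : El → ℕ
  | .zero => 0
  | .pow _ => 0
  | .pair i l => max (hI N i) (hF N l)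

lemma pot_adj (hN : 2 ≤ N) (x y : NonCentral (Sg N)) (h : (commutingGraph (Sg N)).Adj x y) :
    pot N x.1 ≤ pot N y.1 + 1 := by
  obtain ⟨hne, hc⟩ := h
  rcases vertex_cases x with ⟨a, rfl⟩ | ⟨i, l, rfl⟩
  · exact Nat.zero_le _
  · rcases vertex_cases y with ⟨b, rfl⟩ | ⟨j, m, rfl⟩
    · have h1 := comm_tt_pp.1 hc.symm
      obtain ⟨rfl, rfl⟩ := h1
      exact Nat.zero_le _
    · rcases comm_pp_pp.1 hc with ⟨rfl, rfl⟩ | ⟨h1, h2⟩
      · exact absurd rfl hne
      · have e1 := lip hN _ _ h1
        have e2 := lip hN _ _ h2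
        change max (hI N i) (hF N l) ≤ max (hI N j) (hF N m) + 1
        omega

lemma pot_walk (hN : 2 ≤ N) {x y : NonCentral (Sg N)} (w : (commutingGraph (Sg N)).Walk x y) :
    pot N x.1 ≤ pot N y.1 + w.length := by
  induction w with
  | nil => simp
  | cons h p ih =>
    have := pot_adj hN _ _ h
    rw [SimpleGraph.Walk.length_cons]
    omega

lemma ediam_ge (D : ℕ) (hD : 1 ≤ D) : (D : ℕ∞) ≤ (commutingGraph (Sg (2 * D))).ediam := by
  refine le_trans ?_ (SimpleGraph.edist_le_ediam (u := vp (Idx.nn D) Fn.ff)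
    (v := vp Idx.al Fn.ff))
  by_contra hlt
  rw [not_le] at hlt
  obtain ⟨w, hw⟩ := SimpleGraph.exists_walk_of_edist_ne_top (ne_top_of_lt hlt)
  rw [← hw] at hlt
  have h1 := pot_walk (by omega) w
  have h2 : pot (2 * D) (vp (N := 2 * D) (Idx.nn D) Fn.ff).1 = D := by
    change max (min (D % (2 * D)) (2 * D - D % (2 * D))) 0 = D
    rw [Nat.mod_eq_of_lt (by omega)]
    omega
  have h3 : pot (2 * D) (vp (N := 2 * D) Idx.al Fn.ff).1 = 0 := rfl
  rw [h2, h3] at h1
  have h4 : w.length < D := by exact_mod_cast hlt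
  omega

/-! ### Rank -/

lemma rank_le (_hN : 2 ≤ N) : RankAtMost (Sg N) 3 := by
  classical
  let x : Sg N := pp (Idx.nn 0) (Fn.lam 0)
  let y : Sg N := pp Idx.al Fn.nu
  refine ⟨{tt 0, x, y}, Finset.card_le_three, ?_⟩
  rw [eq_top_iff]
  set C := Subsemigroup.closure ((({tt 0, x, y} : Finset (Sg N)) : Set (Sg N))) with hC
  have ht0 : tt 0 ∈ C := Subsemigroup.subset_closure (by simp)
  have hx : x ∈ C := Subsemigroup.subset_closure (by simp)
  have hy : y ∈ C := Subsemigroup.subset_closure (by simp)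
  have ht : ∀ a, (tt a : Sg N) ∈ C := by
    intro a
    induction a with
    | zero => exact ht0
    | succ a ih =>
      have := C.mul_mem ih ht0
      rw [tt_mul_tt] at this
      exact this
  have hleft : ∀ l, (pp (Idx.nn 0) l : Sg N) ∈ C → ∀ n, (pp (Idx.nn n) l : Sg N) ∈ C := by
    intro l h n
    cases n with
    | zero => exact h
    | succ n =>
      have := C.mul_mem (ht n) h
      rw [tt_mul_pp] at this
      have e : (Idx.nn 0).shift n = Idx.nn (n + 1) := by simp [Idx.shift]
      rw [e] at this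
      exact this
  have hright : ∀ i, (pp i (Fn.lam 0) : Sg N) ∈ C → ∀ k, (pp i (Fn.lam k) : Sg N) ∈ C := by
    intro i h k
    cases k with
    | zero => exact h
    | succ k =>
      have := C.mul_mem h (ht k)
      rw [pp_mul_tt] at this
      have e : (Fn.lam 0).shift k = Fn.lam (k + 1) := by simp [Fn.shift]
      rw [e] at this
      exact this
  have hff : ∀ i, (pp i Fn.nu : Sg N) ∈ C → (pp i Fn.ff : Sg N) ∈ C := by
    intro i h
    have := C.mul_mem h ht0
    rw [pp_mul_tt] at this
    exact this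
  -- `x * y = (0, nu)`
  have h0nu : (pp (Idx.nn 0) Fn.nu : Sg N) ∈ C := by
    have := C.mul_mem hx hy
    simp only [x, y] at this
    rw [pp_mul_pp] at this
    simpa [pairing] using this
  -- `y * t x = (al, lam 0)`
  have hallam : (pp Idx.al (Fn.lam 0) : Sg N) ∈ C := by
    have := C.mul_mem hy (C.mul_mem ht0 hx)
    simp only [x, y] at this
    rw [tt_mul_pp, pp_mul_pp] at this
    simpa [pairing, Idx.shift] using this
  have hzero : (zz : Sg N) ∈ C := by
    have := C.mul_mem hx hx
    simp only [x] at this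
    rw [pp_mul_pp] at this
    simpa [pairing] using this
  rintro z -
  rcases cases' z with rfl | ⟨a, rfl⟩ | ⟨i, l, rfl⟩
  · exact hzero
  · exact ht a
  · cases i with
    | al =>
      cases l with
      | ff => exact hff _ hy
      | nu => exact hy
      | lam k => exact hright _ hallam k
    | nn n =>
      cases l with
      | ff => exact hleft _ (hff _ h0nu) n
      | nu => exact hleft _ h0nu n
      | lam k => exact hleft _ (hright _ hx k) n

theorem main (D : ℕ) : ∃ (S : Type) (_ : Semigroup S), RankAtMost S 3 ∧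
    (commutingGraph S).Connected ∧ (D : ℕ∞) ≤ (commutingGraph S).ediam ∧
      (commutingGraph S).ediam < ⊤ := by
  refine ⟨Sg (2 * (D + 1)), inferInstance, rank_le (by omega), connected (by omega), ?_,
    ediam_lt_top (by omega)⟩
  refine le_trans ?_ (ediam_ge (D + 1) (by omega))
  exact_mod_cast Nat.le_succ D

end Q20.RankDiam
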